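import Pool.Agent.V1132.GE.Main

set_option autoImplicit false
set_option linter.unusedSectionVars false

/-! Closedness of the set of values. -/

namespace Pool.Agent.V1132.GE

open MvPolynomial Cardinal

universe u v

section
variable {k F : Type} [Field k] [Countable k] [Field F] [IsAlgClosed F] [Uncountable F]
  [Algebra k F] {Y : Type v} [Finite Y]

theorem infinite_basis (t : Set F) (ht : IsTranscendenceBasis k ((↑) : t → F)) : Infinite t := by
  by_contra h
  rw [not_infinite_iff_finite] at h
  have h1 := IsAlgClosed.cardinal_le_max_transcendence_basis' _ ht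
  have h2 : #F ≤ ℵ₀ := by
    refine h1.trans ?_
    simp only [max_le_iff, mk_le_aleph0_iff]
    exact ⟨⟨inferInstance, Finite.to_countable⟩, le_rfl⟩
  exact (not_countable_iff.2 inferInstance) (mk_le_aleph0_iff.1 h2)

/-- a domain which is countable over `k` embeds -/
theorem exists_embed (E : Type v) [Field E] [Algebra k E] [Countable E] :
    ∃ φ : E →+* F, ∀ x : k, φ (algebraMap k E x) = algebraMap k F x := by
  classical
  obtain ⟨s, hs⟩ := exists_isTranscendenceBasis k E
  obtain ⟨t, ht⟩ := exists_isTranscendenceBasis k F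
  have := infinite_basis t ht
  obtain ⟨i, hi⟩ := exists_injective_nat s
  let j : s → t := fun x => Infinite.natEmbedding t (i x)
  have hj : Function.Injective j := (Infinite.natEmbedding t).injective.comp hi
  let alg1 : Algebra (MvPolynomial s k) E :=
    (aeval (fun x : s => (x : E)) : MvPolynomial s k →ₐ[k] E).toRingHom.toAlgebra
  let θ : MvPolynomial s k →ₐ[k] F := aeval (fun x : s => (j x : F))
  let alg2 : Algebra (MvPolynomial s k) F := θ.toRingHom.toAlgebra
  have hinj1 : Function.Injective (algebraMap (MvPolynomial s k) E) := hs.1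
  have hinj2 : Function.Injective (algebraMap (MvPolynomial s k) F) := ht.1.comp j hj
  have htf1 : FaithfulSMul (MvPolynomial s k) E := (faithfulSMul_iff_algebraMap_injective _ _).2 hinj1
  have htf2 : FaithfulSMul (MvPolynomial s k) F := (faithfulSMul_iff_algebraMap_injective _ _).2 hinj2
  have halg : Algebra.IsAlgebraic (MvPolynomial s k) E := by
    refine ⟨fun x => ?_⟩
    obtain ⟨q, hq0, hq⟩ := hs.isAlgebraic.isAlgebraic x
    let ρ : MvPolynomial s k →+* Algebra.adjoin k (Set.range ((↑) : s → E)) :=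
      ((aeval (fun x : s => (x : E)) : MvPolynomial s k →ₐ[k] E).codRestrict
        (Algebra.adjoin k (Set.range ((↑) : s → E)))
        (fun f => by
          rw [Algebra.adjoin_range_eq_range_aeval]
          exact ⟨f, rfl⟩)).toRingHom
    have hρ : Function.Surjective ρ := by
      rintro ⟨y, hy⟩
      rw [Algebra.adjoin_range_eq_range_aeval] at hy
      obtain ⟨f, hf⟩ := hy
      exact ⟨f, Subtype.ext hf⟩
    obtain ⟨f, hf⟩ := Polynomial.map_surjective ρ hρ q
    refine ⟨f, ?_, ?_⟩
    · rintro rfl
      apply hq0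
      rw [← hf, Polynomial.map_zero]
    · rw [← hf] at hq
      rw [Polynomial.aeval_def, Polynomial.eval₂_map] at hq
      exact hq
  let σ : E →ₐ[MvPolynomial s k] F := IsAlgClosed.lift
  refine ⟨σ.toRingHom, fun x => ?_⟩
  have h4 := σ.commutes (C x)
  have h5 : algebraMap (MvPolynomial s k) E (C x) = algebraMap k E x := by
    change aeval (fun x : s => (x : E)) (C x) = _
    rw [aeval_C]
  have h6 : algebraMap (MvPolynomial s k) F (C x) = algebraMap k F x := by
    change θ (C x) = _
    rw [aeval_C]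
  rw [h5, h6] at h4
  exact h4

/-- **Generic points.** -/
theorem generic_point (P : Ideal (MvPolynomial Y k)) [P.IsPrime] :
    ∃ w : Y → F, ∀ f : MvPolynomial Y k, aeval w f = 0 ↔ f ∈ P := by
  classical
  let A := MvPolynomial Y k ⧸ P
  let E := FractionRing A
  have hc1 : Countable (MvPolynomial Y k) := countable_mv
  have hc2 : Countable A := Ideal.Quotient.mk_surjective.countable
  have hc3 : Countable E := (IsLocalization.mk'_surjective (nonZeroDivisors A) : Function.Surjective
    (Function.uncurry (IsLocalization.mk' E))).countable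
  obtain ⟨φ, hφ⟩ := exists_embed (k := k) (F := F) E
  let ψ : MvPolynomial Y k →+* F := φ.comp ((algebraMap A E).comp (Ideal.Quotient.mk P))
  refine ⟨fun y => ψ (X y), fun f => ?_⟩
  have h1 : aeval (fun y => ψ (X y)) f = ψ f := by
    have h2 : (aeval (fun y => ψ (X y)) : MvPolynomial Y k →ₐ[k] F).toRingHom = ψ := by
      apply MvPolynomial.ringHom_ext
      · intro x
        change aeval (fun y => ψ (X y)) (C x) = ψ (C x)
        rw [aeval_C]
        exact (hφ x).symm
      · intro y
        change aeval (fun y => ψ (X y)) (X y) = ψ (X y)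
        rw [aeval_X]
    exact RingHom.congr_fun h2 f
  rw [h1]
  constructor
  · intro h
    have h3 : algebraMap A E (Ideal.Quotient.mk P f) = 0 := (map_eq_zero φ).1 h
    have h4 : Ideal.Quotient.mk P f = 0 := (IsFractionRing.injective A E) (by rw [h3, map_zero])
    exact Ideal.Quotient.eq_zero_iff_mem.1 h4
  · intro h
    have h4 : Ideal.Quotient.mk P f = 0 := Ideal.Quotient.eq_zero_iff_mem.2 h
    change φ (algebraMap A E (Ideal.Quotient.mk P f)) = 0
    rw [h4, map_zero, map_zero]

end

/-- polynomials with coefficients in a subfield -/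
theorem exists_lift {F : Type} [Field F] {Y : Type v} (k : Subfield F) (f : MvPolynomial Y F)
    (hf : ∀ m, f.coeff m ∈ k) : ∃ g : MvPolynomial Y k, map (algebraMap k F) g = f := by
  classical
  refine ⟨∑ m ∈ f.support, monomial m ⟨f.coeff m, hf m⟩, ?_⟩
  rw [map_sum]
  conv_rhs => rw [f.as_sum]
  refine Finset.sum_congr rfl fun m _ => ?_
  rw [map_monomial]
  rfl

section
variable {F : Type} [Field F] [IsAlgClosed F] [Uncountable F] {Y : Type v} [Finite Y]

/-- a point of a variety outside countably many hypersurfaces -/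
theorem exists_avoid (J : Ideal (MvPolynomial Y F)) [J.IsPrime] (R : ℕ → MvPolynomial Y F)
    (hR : ∀ n, R n ∉ J) : ∃ w : Y → F, (∀ f ∈ J, eval w f = 0) ∧ ∀ n, eval w (R n) ≠ 0 := by
  classical
  obtain ⟨gen, hgen⟩ := (isNoetherianRing_iff_ideal_fg (MvPolynomial Y F)).1 inferInstance J
  let S : Set F := (⋃ n, ((R n).coeffs : Set F)) ∪ ⋃ g ∈ gen, (g.coeffs : Set F)
  have hS : S.Countable := by
    apply Set.Countable.union
    · exact Set.countable_iUnion fun n => Finset.countable_toSet _
    · exact Set.Countable.biUnion (Finset.countable_toSet gen) fun g _ => Finset.countable_toSet _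
  let k : Subfield F := Subfield.closure S
  have hk : Countable k := by
    have h1 := Subfield.cardinalMk_closure_le_max S
    rw [← mk_le_aleph0_iff]
    refine h1.trans ?_
    rw [max_le_iff]
    exact ⟨mk_le_aleph0_iff.2 hS.to_subtype, le_rfl⟩
  have hcoef : ∀ f : MvPolynomial Y F, (f.coeffs : Set F) ⊆ S → ∀ m, f.coeff m ∈ k := by
    intro f hf m
    by_cases h : f.coeff m = 0
    · rw [h]
      exact k.zero_mem
    · apply Subfield.subset_closure
      apply hf
      rw [Finset.mem_coe]
      exact MvPolynomial.coeff_mem_coeffs m h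
  choose R' hR' using fun n => exists_lift k (R n) (hcoef (R n)
    ((Set.subset_iUnion (fun n => ((R n).coeffs : Set F)) n).trans Set.subset_union_left))
  let P : Ideal (MvPolynomial Y k) := J.comap (map (algebraMap k F))
  have hP : P.IsPrime := Ideal.IsPrime.comap _
  obtain ⟨w, hw⟩ := generic_point (k := k) (F := F) P
  have hev : ∀ g : MvPolynomial Y k, eval w (map (algebraMap k F) g) = aeval w g := by
    intro g
    rw [eval_map]
    rfl
  refine ⟨w, ?_, ?_⟩
  · intro f hf
    rw [← hgen] at hf
    have h2 : Ideal.span (gen : Set (MvPolynomial Y F)) ≤ RingHom.ker (eval w) := by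
      rw [Ideal.span_le]
      intro g hg
      have hgk : (g.coeffs : Set F) ⊆ S := by
        refine subset_trans ?_ Set.subset_union_right
        exact Set.subset_biUnion_of_mem (u := fun g : MvPolynomial Y F => (g.coeffs : Set F)) hg
      obtain ⟨g', hg'⟩ := exists_lift k g (hcoef g hgk)
      change eval w g = 0
      rw [← hg', hev, hw]
      change map (algebraMap k F) g' ∈ J
      rw [hg', ← hgen]
      exact Ideal.subset_span hg
    exact h2 hf
  · intro n h
    rw [← hR', hev, hw] at h
    apply hR n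
    rw [← hR' n]
    exact h

/-- **Closedness.** -/
theorem closed_values (kd : (Y → F) → ℝ)
    (hcl : ∀ (d : ℝ) (v : Y → F), kd v < d → ∃ f : MvPolynomial Y F, eval v f ≠ 0 ∧
      ∀ u, d ≤ kd u → eval u f = 0)
    (b : ℕ → Y → F) (r : ℝ) (hb : Filter.Tendsto (fun n => kd (b n)) Filter.atTop (nhds r)) :
    ∃ w, kd w = r := by
  classical
  let J : Set ℕ → Ideal (MvPolynomial Y F) := fun M => vanishingIdeal F (b '' M)
  have hJ : ∀ M f, f ∈ J M ↔ ∀ n ∈ M, eval (b n) f = 0 := by
    intro M f
    change f ∈ vanishingIdeal F (b '' M) ↔ _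
    rw [mem_vanishingIdeal_iff]
    constructor
    · intro h n hn
      have := h (b n) ⟨n, hn, rfl⟩
      rwa [ae] at this
    · rintro h _ ⟨n, hn, rfl⟩
      rw [ae]
      exact h n hn
  let C : Set (Ideal (MvPolynomial Y F)) := {P | ∃ M : Set ℕ, M.Infinite ∧ P = J M}
  obtain ⟨P, ⟨M, hM, rfl⟩, hmax⟩ := set_has_maximal_iff_noetherian.2
    (inferInstance : IsNoetherian (MvPolynomial Y F) (MvPolynomial Y F)) C
    ⟨_, Set.univ, Set.infinite_univ, rfl⟩
  have key : ∀ f : MvPolynomial Y F, {n ∈ M | eval (b n) f = 0}.Infinite → f ∈ J M := by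
    intro f hf
    by_contra hne
    apply hmax _ ⟨_, hf, rfl⟩
    refine lt_of_le_of_ne ?_ ?_
    · intro g hg
      rw [hJ] at hg ⊢
      intro n hn
      exact hg n hn.1
    · intro h
      apply hne
      rw [h, hJ]
      intro n hn
      exact hn.2
  have hprime : (J M).IsPrime := by
    refine ⟨?_, ?_⟩
    · intro htop
      obtain ⟨n, hn⟩ := hM.nonempty
      have h1 : (1 : MvPolynomial Y F) ∈ J M := by rw [htop]; trivial
      have h2 := (hJ M 1).1 h1 n hn
      rw [map_one] at h2
      exact one_ne_zero h2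
    · intro f g hfg
      have h1 : M ⊆ {n ∈ M | eval (b n) f = 0} ∪ {n ∈ M | eval (b n) g = 0} := by
        intro n hn
        have h2 := (hJ M _).1 hfg n hn
        rw [map_mul] at h2
        rcases mul_eq_zero.1 h2 with h3 | h3
        · exact Or.inl ⟨hn, h3⟩
        · exact Or.inr ⟨hn, h3⟩
      rcases Set.infinite_union.1 (hM.mono h1) with h2 | h2
      · exact Or.inl (key f h2)
      · exact Or.inr (key g h2)
  have hup : ∀ m : ℕ, ∃ R : MvPolynomial Y F, R ∉ J M ∧
      ∀ u, r + 1 / ((m : ℝ) + 1) ≤ kd u → eval u R = 0 := by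
    intro m
    have hδ : (0 : ℝ) < 1 / ((m : ℝ) + 1) := by positivity
    have h1 : ∀ᶠ n in Filter.atTop, kd (b n) < r + 1 / ((m : ℝ) + 1) :=
      (tendsto_order.1 hb).2 _ (by linarith)
    obtain ⟨N, hN⟩ := Filter.eventually_atTop.1 h1
    obtain ⟨n, hn, hnN⟩ := hM.exists_gt N
    obtain ⟨f, hf1, hf2⟩ := hcl _ _ (hN n hnN.le)
    refine ⟨f, fun h => hf1 ((hJ M f).1 h n hn), hf2⟩
  choose R hR1 hR2 using hup
  obtain ⟨w, hw1, hw2⟩ := exists_avoid (J M) R hR1
  refine ⟨w, le_antisymm ?_ ?_⟩
  · by_contra hcon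
    push Not at hcon
    obtain ⟨m, hm⟩ := exists_nat_one_div_lt (sub_pos.2 hcon)
    exact hw2 m (hR2 m w (by linarith))
  · by_contra hcon
    push Not at hcon
    obtain ⟨f, hf1, hf2⟩ := hcl ((kd w + r) / 2) w (by linarith)
    apply hf1
    apply hw1
    apply key
    have h1 : ∀ᶠ n in Filter.atTop, (kd w + r) / 2 < kd (b n) :=
      (tendsto_order.1 hb).1 _ (by linarith)
    obtain ⟨N, hN⟩ := Filter.eventually_atTop.1 h1
    have h2 : M \ Set.Iio N ⊆ {n ∈ M | eval (b n) f = 0} := by
      intro n hn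
      refine ⟨hn.1, hf2 _ (hN n ?_).le⟩
      by_contra h
      exact hn.2 (not_le.1 h)
    exact (hM.sdiff (Set.finite_Iio N)).mono h2

/-- descent of the closedness of the superlevel sets -/
theorem descend [Algebra F ℂ] (kd : (Y → ℂ) → ℝ)
    (hcl : ∀ d : ℝ, zeroLocus ℂ (vanishingIdeal ℂ {a | d ≤ kd a}) = {a | d ≤ kd a})
    (d : ℝ) (v : Y → F) (hv : kd (up v) < d) : ∃ f : MvPolynomial Y F, eval v f ≠ 0 ∧
      ∀ u, d ≤ kd (up u) → eval u f = 0 := by
  have h1 : up v ∉ {a : Y → ℂ | d ≤ kd a} := fun h => absurd h (not_le.2 hv)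
  rw [← hcl, mem_zeroLocus_iff] at h1
  push Not at h1
  obtain ⟨R, hR, hRv⟩ := h1
  rw [ae] at hRv
  obtain ⟨φ, hφ⟩ := exists_functional (K := F) _ hRv
  refine ⟨co φ R, ?_, fun u hu => ?_⟩
  · rw [eval_co]
    exact hφ
  · rw [eval_co]
    have h2 := hR (up u) hu
    rw [ae] at h2
    rw [h2, map_zero]

/-- limits of values over `F` are values over `F` -/
theorem closed_up [Algebra F ℂ] (kd : (Y → ℂ) → ℝ)
    (hcl : ∀ d : ℝ, zeroLocus ℂ (vanishingIdeal ℂ {a | d ≤ kd a}) = {a | d ≤ kd a}) :
    IsClosed (Set.range fun v : Y → F => kd (up v)) := by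
  rw [← isSeqClosed_iff_isClosed]
  intro x r hx hr
  choose b hb using hx
  obtain ⟨w, hw⟩ := closed_values (fun v : Y → F => kd (up v)) (descend kd hcl) b r (by
    have h1 : (fun n => kd (up (b n))) = x := by
      funext n
      exact hb n
    rw [h1]
    exact hr)
  exact ⟨w, hw⟩

end

end Pool.Agent.V1132.GE
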