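import Pool.Agent.V1132.GE.Main

set_option autoImplicit false
set_option linter.unusedSectionVars false

/-! Purely transcendental coefficients. -/

namespace Pool.Agent.V1132.GE

open MvPolynomial Cardinal

universe u v

section
variable {K : Type} [Field K] [Algebra K ℂ] {X : Type u} {Y : Type v} [Finite X] [Finite Y]

theorem eval_up (v : X → K) (f : MvPolynomial X K) :
    eval (up v) (map (algebraMap K ℂ) f) = algebraMap K ℂ (eval v f) := by
  rw [eval_map, ← eval₂_id, eval₂_comp_left (algebraMap K ℂ)]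
  rfl

/-- a nonzero polynomial does not vanish at some point over `K` -/
theorem exists_up (D : MvPolynomial X ℂ) (hD : D ≠ 0) : ∃ v : X → K, eval (up v) D ≠ 0 := by
  classical
  have : CharZero K := (algebraMap K ℂ).charZero
  by_contra hcon
  push Not at hcon
  apply hD
  apply MvPolynomial.funext_set (fun _ : X => Set.range (algebraMap K ℂ))
  · intro _
    exact Set.infinite_range_of_injective (algebraMap K ℂ).injective
  · intro x hx
    choose v hv using fun i => hx i (Set.mem_univ i)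
    have h1 : x = up v := by
      funext i
      exact (hv i).symm
    rw [h1, hcon, map_zero]

theorem limitP (P : Y → MvPolynomial X K)
    (kd : (Y → ℂ) → ℝ) (hkd : ∀ a, 0 ≤ kd a)
    (hcl : ∀ d : ℝ, zeroLocus ℂ (vanishingIdeal ℂ {a | d ≤ kd a}) = {a | d ≤ kd a}) :
    ∃ D : ℕ → MvPolynomial X ℂ, (∀ n, D n ≠ 0) ∧ ∀ w : X → ℂ,
      (∀ n, eval w (D n) ≠ 0) → ∀ ε : ℝ, 0 < ε →
      ∃ v : X → K, kd (fun j => aeval w (P j)) ≤ kd (up fun j => eval v (P j)) ∧
        kd (up fun j => eval v (P j)) < kd (fun j => aeval w (P j)) + ε := by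
  classical
  let f : (X → K) → ℝ := fun v => kd (up fun j => eval v (P j))
  have hbdd : BddBelow (Set.range f) := ⟨0, by rintro _ ⟨v, rfl⟩; exact hkd _⟩
  set g : ℝ := ⨅ v, f v with hg
  have hgle : ∀ v, g ≤ f v := fun v => ciInf_le hbdd v
  have hex : ∀ ε : ℝ, 0 < ε → ∃ v : X → K, f v < g + ε := by
    intro ε hε
    exact exists_lt_of_ciInf_lt (by rw [← hg]; linarith)
  let co : MvPolynomial Y ℂ → MvPolynomial X ℂ := fun R =>
    bind₁ (fun j => map (algebraMap K ℂ) (P j)) R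
  have hco : ∀ (w : X → ℂ) (R : MvPolynomial Y ℂ),
      eval w (co R) = eval (fun j => aeval w (P j)) R := by
    intro w R
    change eval w (bind₁ (fun j => map (algebraMap K ℂ) (P j)) R) = _
    rw [← ae w, aeval_bind₁, ← ae (fun j => aeval w (P j))]
    congr 2
    funext j
    rw [ae, eval_map]
    rfl
  have hup : ∀ v : X → K, (fun j => aeval (up v) (P j)) = up fun j => eval v (P j) := by
    intro v
    funext j
    have := eval_up v (P j)
    rw [eval_map] at this
    exact this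
  have step : ∀ n : ℕ, ∃ D : MvPolynomial X ℂ, D ≠ 0 ∧ ∀ w : X → ℂ, eval w D ≠ 0 →
      kd (fun j => aeval w (P j)) < g + 1 / ((n : ℝ) + 1) := by
    intro n
    obtain ⟨v, hv⟩ := hex (1 / ((n : ℝ) + 1)) (by positivity)
    have h1 : (up fun j => eval v (P j)) ∉
        {a : Y → ℂ | g + 1 / ((n : ℝ) + 1) ≤ kd a} := fun h => absurd h (not_le.2 hv)
    rw [← hcl, mem_zeroLocus_iff] at h1
    push Not at h1
    obtain ⟨R, hR, hRv⟩ := h1
    rw [ae] at hRv
    refine ⟨co R, ?_, fun w hw => ?_⟩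
    · intro h0
      apply hRv
      rw [← hup, ← hco, h0, map_zero]
    · rw [hco] at hw
      by_contra hcon
      push Not at hcon
      have h3 := hR _ hcon
      rw [ae] at h3
      exact hw h3
  choose D hD0 hD using step
  refine ⟨D, hD0, fun w hDw ε hε => ?_⟩
  have hle : kd (fun j => aeval w (P j)) ≤ g := by
    by_contra hcon
    push Not at hcon
    obtain ⟨n, hn⟩ := exists_nat_one_div_lt (sub_pos.2 hcon)
    have := hD n w (hDw n)
    linarith
  have hlow : g ≤ kd (fun j => aeval w (P j)) := by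
    by_contra hcon
    have h1 : (fun j => aeval w (P j)) ∉ {a : Y → ℂ | g ≤ kd a} := hcon
    rw [← hcl, mem_zeroLocus_iff] at h1
    push Not at h1
    obtain ⟨R, hR, hRw⟩ := h1
    rw [ae] at hRw
    have h2 : co R ≠ 0 := by
      intro h0
      apply hRw
      rw [← hco, h0, map_zero]
    obtain ⟨v, hv⟩ := exists_up (K := K) _ h2
    apply hv
    rw [hco, hup]
    have h3 := hR (up fun j => eval v (P j)) (hgle v)
    rw [ae] at h3
    exact h3
  obtain ⟨v, hv⟩ := hex ε hε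
  refine ⟨v, hle.trans (hgle v), ?_⟩
  have h1 : f v < g + ε := hv
  have h2 : kd (up fun j => eval v (P j)) = f v := rfl
  rw [h2]
  linarith

end

section
variable (K : Type) [Field K] [Algebra K ℂ] [Countable K]
variable {Ω : Type u} [Countable Ω] {Y : Ω → Type v} [∀ ω, Finite (Y ω)]
  (kd : ∀ ω, (Y ω → ℂ) → ℝ) (h0 : ∀ ω a, 0 ≤ kd ω a)
  (hcl : ∀ (ω : Ω) (d : ℝ), zeroLocus ℂ (vanishingIdeal ℂ {a | d ≤ kd ω a}) = {a | d ≤ kd ω a})
  (hsc : ∀ (ω : Ω) (c : ℂ) (a : Y ω → ℂ), c ≠ 0 → kd ω (fun t => c * a t) = kd ω a)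
include h0 hcl hsc

theorem familyP (p : ℕ) :
    ∃ Q : ℕ → MvPolynomial (Fin p) ℂ, (∀ n, Q n ≠ 0) ∧ ∀ z : Fin p → ℂ,
      (∀ n, eval z (Q n) ≠ 0) → AlgebraicIndependent K z ∧
      ∀ (ω : Ω) (a : Y ω → ℂ),
      (∀ t, a t ∈ IntermediateField.adjoin K (Set.range z)) → ∀ ε : ℝ, 0 < ε →
      ∃ b : Y ω → K, (∀ t, a t = 0 → b t = 0) ∧
        kd ω a ≤ kd ω (up b) ∧ kd ω (up b) < kd ω a + ε := by
  classical
  have hcM : Countable (MvPolynomial (Fin p) K) := countable_mv
  let Dat := Σ ω : Ω, (Y ω → MvPolynomial (Fin p) K)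
  have hcD : Countable Dat := inferInstance
  have hD : ∀ d : Dat, ∃ D : ℕ → MvPolynomial (Fin p) ℂ, (∀ n, D n ≠ 0) ∧ ∀ w : Fin p → ℂ,
      (∀ n, eval w (D n) ≠ 0) → ∀ ε : ℝ, 0 < ε →
      ∃ v : Fin p → K, kd d.1 (fun j => aeval w (d.2 j)) ≤ kd d.1 (up fun j => eval v (d.2 j)) ∧
        kd d.1 (up fun j => eval v (d.2 j)) < kd d.1 (fun j => aeval w (d.2 j)) + ε := by
    rintro ⟨ω, P⟩
    exact limitP P (kd ω) (h0 ω) (hcl ω)
  choose D hD0 hD using hD
  let Ix := (Dat × ℕ) ⊕ {f : MvPolynomial (Fin p) K // f ≠ 0}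
  have : Nonempty Ix := ⟨Sum.inr ⟨1, one_ne_zero⟩⟩
  obtain ⟨e, he⟩ := exists_surjective_nat Ix
  let Q : Ix → MvPolynomial (Fin p) ℂ := Sum.elim (fun x => D x.1 x.2)
    (fun f => MvPolynomial.map (algebraMap K ℂ) f.1)
  have hQ0 : ∀ x, Q x ≠ 0 := by
    rintro (x | f)
    · exact hD0 _ _
    · intro h
      apply f.2
      apply MvPolynomial.map_injective _ (algebraMap K ℂ).injective
      rw [map_zero]
      exact h
  refine ⟨fun n => Q (e n), fun n => hQ0 _, fun z hz => ?_⟩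
  have hz' : ∀ x, eval z (Q x) ≠ 0 := by
    intro x
    obtain ⟨n, rfl⟩ := he x
    exact hz n
  refine ⟨?_, fun ω a ha ε hε => ?_⟩
  · rw [algebraicIndependent_iff]
    intro f hf
    by_contra hne
    apply hz' (Sum.inr ⟨f, hne⟩)
    change eval z (MvPolynomial.map (algebraMap K ℂ) f) = 0
    rw [eval_map]
    exact hf
  cases nonempty_fintype (Y ω)
  have hfr : ∀ t : Y ω, ∃ N E : MvPolynomial (Fin p) K, aeval z E ≠ 0 ∧
      a t * aeval z E = aeval z N ∧ (a t = 0 → N = 0) := by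
    intro t
    by_cases h : a t = 0
    · exact ⟨0, 1, by simp, by simp [h], fun _ => rfl⟩
    · obtain ⟨N, E, hNE⟩ := (IntermediateField.mem_adjoin_range_iff K z (a t)).1 (ha t)
      have hE : aeval z E ≠ 0 := by
        intro h0
        apply h
        rw [hNE, h0, div_zero]
      refine ⟨N, E, hE, ?_, fun h0 => absurd h0 h⟩
      rw [hNE, div_mul_cancel₀ _ hE]
  choose N E hE hNE hN0 using hfr
  let P : Y ω → MvPolynomial (Fin p) K := fun t => N t * ∏ s ∈ Finset.univ.erase t, E s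
  have hP : ∀ t, aeval z (P t) = (∏ s, aeval z (E s)) * a t := by
    intro t
    change aeval z (N t * ∏ s ∈ Finset.univ.erase t, E s) = _
    rw [map_mul, ← hNE, map_prod, ← Finset.mul_prod_erase Finset.univ (fun s => aeval z (E s))
      (Finset.mem_univ t)]
    ring
  have hc : (∏ s, aeval z (E s) : ℂ) ≠ 0 := Finset.prod_ne_zero_iff.2 fun s _ => hE s
  obtain ⟨v, h1, h2⟩ := hD ⟨ω, P⟩ z (fun n => hz' (Sum.inl (⟨ω, P⟩, n))) ε hε
  have h3 : kd ω (fun j => aeval z (P j)) = kd ω a := by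
    rw [← hsc ω _ a hc]
    congr 1
    funext t
    exact hP t
  refine ⟨fun t => eval v (P t), fun t ht => ?_, ?_, ?_⟩
  · change eval v (N t * ∏ s ∈ Finset.univ.erase t, E s) = 0
    rw [hN0 t ht, zero_mul, map_zero]
  · rw [← h3]
    exact h1
  · rw [← h3]
    exact h2

/-- **A large purely transcendental field.** -/
theorem exists_large : ∃ S : Set ℂ, #S = 𝔠 ∧ AlgebraicIndependent K ((↑) : S → ℂ) ∧
    ∀ (ω : Ω) (a : Y ω → ℂ), (∀ t, a t ∈ IntermediateField.adjoin K S) →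
      ∀ (ε : ℝ), 0 < ε → ∃ b : Y ω → K, (∀ t, a t = 0 → b t = 0) ∧
        kd ω a ≤ kd ω (up b) ∧ kd ω (up b) < kd ω a + ε := by
  classical
  choose Q hQ0 hQ using familyP K kd h0 hcl hsc
  obtain ⟨S, hgood, hS⟩ := exists_good Q hQ0
  refine ⟨S, hS, ?_, fun ω a ha ε hε => ?_⟩
  · apply algebraicIndependent_of_finite
    intro t ht hfin
    obtain ⟨p, z, hz, hzR⟩ := hgood hfin.toFinset (by rw [Set.Finite.coe_toFinset]; exact ht)
    rw [Set.Finite.coe_toFinset] at hz
    exact (hQ p z (fun n => hzR _ (Set.mem_iUnion.2 ⟨0, n, rfl⟩))).1.to_subtype_range' hz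
  · cases nonempty_fintype (Y ω)
    choose F hF1 hF2 using fun t => IntermediateField.exists_finset_of_mem_adjoin (ha t)
    obtain ⟨p, z, hz, hzR⟩ := hgood (Finset.univ.biUnion F) (by
      intro y hy
      rw [Finset.mem_coe, Finset.mem_biUnion] at hy
      obtain ⟨n, _, hn⟩ := hy
      exact hF1 n hn)
    refine (hQ p z (fun n => hzR _ (Set.mem_iUnion.2 ⟨0, n, rfl⟩))).2 ω a (fun t => ?_) ε hε
    rw [hz]
    exact IntermediateField.adjoin.mono K _ _
      (Finset.coe_subset.2 (Finset.subset_biUnion_of_mem F (Finset.mem_univ t))) (hF2 t)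

end

end Pool.Agent.V1132.GE
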