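import Mathlib

set_option autoImplicit false
set_option linter.unusedSectionVars false

/-! Points of varieties over an algebraically closed subfield of the complex numbers. -/

namespace Pool.Agent.V1132.GE

open MvPolynomial

universe u v

theorem ae {R : Type u} {X : Type v} [CommSemiring R] (v : X → R) (f : MvPolynomial X R) :
    aeval v f = eval v f := by
  rw [← coe_aeval_eq_eval]
  rfl

section
variable {K : Type} [Field K] [Algebra K ℂ] {X : Type u}

/-- the complex point given by a point over `K` -/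
noncomputable def up (v : X → K) : X → ℂ := fun i => algebraMap K ℂ (v i)

/-- a functional applied to the coefficients -/
noncomputable def co (φ : ℂ →ₗ[K] K) (f : MvPolynomial X ℂ) : MvPolynomial X K :=
  ∑ m ∈ f.support, monomial m (φ (f.coeff m))

theorem coeff_co (φ : ℂ →ₗ[K] K) (f : MvPolynomial X ℂ) (m : X →₀ ℕ) :
    (co φ f).coeff m = φ (f.coeff m) := by
  classical
  unfold co
  rw [coeff_sum]
  simp only [coeff_monomial]
  rw [Finset.sum_ite_eq']
  split_ifs with h
  · rfl
  · rw [notMem_support_iff.1 h, map_zero]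

theorem eval_co (φ : ℂ →ₗ[K] K) (f : MvPolynomial X ℂ) (v : X → K) :
    eval v (co φ f) = φ (eval (up v) f) := by
  unfold co
  rw [map_sum, eval_eq (up v) f, map_sum]
  refine Finset.sum_congr rfl fun m _ => ?_
  rw [eval_monomial]
  have h : (f.coeff m * ∏ i ∈ m.support, up v i ^ m i : ℂ) =
      (∏ i ∈ m.support, v i ^ m i : K) • f.coeff m := by
    rw [Algebra.smul_def, map_prod, mul_comm]
    congr 1
    refine Finset.prod_congr rfl fun i _ => ?_
    rw [map_pow]
    rfl
  rw [h, map_smul, smul_eq_mul, mul_comm]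
  rfl

theorem exists_functional (c : ℂ) (hc : c ≠ 0) : ∃ φ : ℂ →ₗ[K] K, φ c ≠ 0 := by
  by_contra h
  push Not at h
  exact hc ((Module.forall_dual_apply_eq_zero_iff K c).1 h)

/-- a polynomial all of whose components vanish at a point vanishes there -/
theorem eval_eq_zero_of_co (f : MvPolynomial X ℂ) (w : X → ℂ)
    (h : ∀ φ : ℂ →ₗ[K] K, aeval w (co φ f) = 0) : eval w f = 0 := by
  classical
  let e := Module.Basis.ofVectorSpace K ℂ
  let U := f.support.biUnion fun m => (e.repr (f.coeff m)).support
  have h1 : ∀ m ∈ f.support, f.coeff m = ∑ i ∈ U, (algebraMap K ℂ (e.coord i (f.coeff m))) * e i := by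
    intro m hm
    conv_lhs => rw [← e.linearCombination_repr (f.coeff m)]
    rw [Finsupp.linearCombination_apply, Finsupp.sum]
    have h2 : (e.repr (f.coeff m)).support ⊆ U := by
      intro i hi
      rw [Finset.mem_biUnion]
      exact ⟨m, hm, hi⟩
    refine (Finset.sum_subset h2 ?_).trans ?_
    · intro i _ hi
      rw [Finsupp.notMem_support_iff.1 hi, zero_smul]
    · refine Finset.sum_congr rfl fun i _ => ?_
      rw [Algebra.smul_def]
      rfl
  rw [eval_eq]
  have h3 : ∀ m ∈ f.support, f.coeff m * ∏ i ∈ m.support, w i ^ m i =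
      ∑ i ∈ U, e i * (algebraMap K ℂ (e.coord i (f.coeff m)) * ∏ j ∈ m.support, w j ^ m j) := by
    intro m hm
    conv_lhs => rw [h1 m hm]
    rw [Finset.sum_mul]
    refine Finset.sum_congr rfl fun i _ => ?_
    ring
  rw [Finset.sum_congr rfl h3, Finset.sum_comm]
  apply Finset.sum_eq_zero
  intro i _
  rw [← Finset.mul_sum]
  have h4 : ∑ m ∈ f.support, (algebraMap K ℂ (e.coord i (f.coeff m)) *
      ∏ j ∈ m.support, w j ^ m j) = aeval w (co (e.coord i) f) := by
    unfold co
    rw [map_sum]
    refine Finset.sum_congr rfl fun m _ => ?_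
    rw [aeval_monomial]
    rfl
  rw [h4, h, mul_zero]

variable [IsAlgClosed K] [Finite X]

/-- the complex vanishing ideal of the points over `K` -/
noncomputable def big (I : Ideal (MvPolynomial X K)) : Ideal (MvPolynomial X ℂ) :=
  vanishingIdeal ℂ (up '' zeroLocus K I)

theorem mem_big {I : Ideal (MvPolynomial X K)} {f : MvPolynomial X ℂ} :
    f ∈ big I ↔ ∀ v ∈ zeroLocus K I, eval (up v) f = 0 := by
  unfold big
  rw [mem_vanishingIdeal_iff]
  constructor
  · intro h v hv
    have := h (up v) ⟨v, hv, rfl⟩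
    rwa [ae] at this
  · rintro h _ ⟨v, hv, rfl⟩
    rw [ae]
    exact h v hv

theorem mem_of_vanish (I : Ideal (MvPolynomial X K)) [I.IsPrime] (f : MvPolynomial X K)
    (h : ∀ v ∈ zeroLocus K I, eval v f = 0) : f ∈ I := by
  rw [← IsPrime.vanishingIdeal_zeroLocus (K := K) I, mem_vanishingIdeal_iff]
  intro v hv
  rw [ae]
  exact h v hv

theorem exists_point (I : Ideal (MvPolynomial X K)) [I.IsPrime] (f : MvPolynomial X K)
    (h : f ∉ I) : ∃ v ∈ zeroLocus K I, eval v f ≠ 0 := by
  by_contra hcon
  push Not at hcon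
  exact h (mem_of_vanish I f hcon)

/-- the points over `K` are dense in the complex points -/
theorem big_le (I : Ideal (MvPolynomial X K)) [I.IsPrime] (w : X → ℂ)
    (hw : ∀ h ∈ I, aeval w h = 0) (f : MvPolynomial X ℂ) (hf : f ∈ big I) : eval w f = 0 := by
  apply eval_eq_zero_of_co (K := K)
  intro φ
  apply hw
  apply mem_of_vanish
  intro v hv
  rw [eval_co, mem_big.1 hf v hv, map_zero]

instance big_prime (I : Ideal (MvPolynomial X K)) [I.IsPrime] : (big I).IsPrime := by
  refine ⟨?_, ?_⟩
  · intro htop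
    obtain ⟨v, hv, h1⟩ := exists_point I 1 (by
      rw [← Ideal.eq_top_iff_one]
      exact Ideal.IsPrime.ne_top inferInstance)
    have h2 : (1 : MvPolynomial X ℂ) ∈ big I := by rw [htop]; trivial
    have h3 := mem_big.1 h2 v hv
    rw [map_one] at h3
    exact one_ne_zero h3
  · intro f g hfg
    by_contra hcon
    push Not at hcon
    obtain ⟨hf, hg⟩ := hcon
    rw [mem_big] at hf hg
    push Not at hf hg
    obtain ⟨v, hv, hfv⟩ := hf
    obtain ⟨u, hu, hgu⟩ := hg
    obtain ⟨φ, hφ⟩ := exists_functional (K := K) _ hfv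
    obtain ⟨ψ, hψ⟩ := exists_functional (K := K) _ hgu
    have h1 : co φ f ∉ I := by
      intro h
      have h2 := hv (co φ f) h
      rw [ae, eval_co] at h2
      exact hφ h2
    have h2 : co ψ g ∉ I := by
      intro h
      have h2 := hu (co ψ g) h
      rw [ae, eval_co] at h2
      exact hψ h2
    have h3 : co φ f * co ψ g ∉ I := by
      intro h
      rcases Ideal.IsPrime.mem_or_mem inferInstance h with h | h
      · exact h1 h
      · exact h2 h
    obtain ⟨t, ht, h4⟩ := exists_point I _ h3
    rw [map_mul, eval_co, eval_co] at h4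
    have h5 := mem_big.1 hfg t ht
    rw [map_mul] at h5
    rcases mul_eq_zero.1 h5 with h6 | h6
    · apply h4
      rw [h6, map_zero, zero_mul]
    · apply h4
      rw [h6, map_zero, mul_zero]

theorem map_mem_big (I : Ideal (MvPolynomial X K)) (f : MvPolynomial X K) (hf : f ∈ I) :
    map (algebraMap K ℂ) f ∈ big I := by
  rw [mem_big]
  intro v hv
  have h1 := hv f hf
  rw [ae] at h1
  rw [eval_map]
  have h2 : eval₂ (algebraMap K ℂ) (up v) f = algebraMap K ℂ (eval v f) := by
    rw [← eval₂_id, eval₂_comp_left (algebraMap K ℂ)]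
    rfl
  rw [h2, h1, map_zero]

end

section
variable {K : Type} [Field K] [Algebra K ℂ] [IsAlgClosed K] {X : Type u} {Y : Type v} [Finite X]
  [Finite Y]

/-- no nonzero polynomial in the first variables lies in the ideal, and the other variables are
algebraic modulo the ideal -/
structure Gen (I : Ideal (MvPolynomial (X ⊕ Y) K)) : Prop where
  prime : I.IsPrime
  free : ∀ f : MvPolynomial X K, rename Sum.inl f ∈ I → f = 0
  alg : ∀ j : Y, ∃ F : Polynomial (MvPolynomial X K), F ≠ 0 ∧
    F.eval₂ (rename Sum.inl : MvPolynomial X K →ₐ[K] MvPolynomial (X ⊕ Y) K).toRingHom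
      (MvPolynomial.X (Sum.inr j)) ∈ I

theorem co_rename (φ : ℂ →ₗ[K] K) (f : MvPolynomial X ℂ) :
    co φ (rename (Sum.inl : X → X ⊕ Y) f) = rename Sum.inl (co φ f) := by
  classical
  unfold co
  rw [support_rename_of_injective Sum.inl_injective, map_sum, Finset.sum_image]
  · refine Finset.sum_congr rfl fun m _ => ?_
    rw [coeff_rename_mapDomain _ Sum.inl_injective, rename_monomial]
  · intro a _ b _ hab
    exact Finsupp.mapDomain_injective Sum.inl_injective hab

theorem big_free {I : Ideal (MvPolynomial (X ⊕ Y) K)} (hI : Gen I) (f : MvPolynomial X ℂ)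
    (hf : rename Sum.inl f ∈ big I) : f = 0 := by
  have := hI.prime
  by_contra hne
  obtain ⟨m, hm⟩ := MvPolynomial.ne_zero_iff.1 hne
  obtain ⟨φ, hφ⟩ := exists_functional (K := K) _ hm
  have h1 : co φ f ≠ 0 := by
    intro h
    apply hφ
    rw [← coeff_co, h, coeff_zero]
  apply h1
  apply hI.free
  apply mem_of_vanish
  intro v hv
  rw [← co_rename, eval_co, mem_big.1 hf v hv, map_zero]

/-- the map from the base to the quotient -/
noncomputable def base (I : Ideal (MvPolynomial (X ⊕ Y) K)) :
    MvPolynomial X ℂ →+* MvPolynomial (X ⊕ Y) ℂ ⧸ big I :=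
  (Ideal.Quotient.mk (big I)).comp
    (rename Sum.inl : MvPolynomial X ℂ →ₐ[ℂ] MvPolynomial (X ⊕ Y) ℂ).toRingHom

theorem base_inj {I : Ideal (MvPolynomial (X ⊕ Y) K)} (hI : Gen I) :
    Function.Injective (base I) := by
  rw [injective_iff_map_eq_zero]
  intro f hf
  apply big_free hI
  exact Ideal.Quotient.eq_zero_iff_mem.1 hf

theorem all_algebraic {I : Ideal (MvPolynomial (X ⊕ Y) K)} (hI : Gen I)
    (f : MvPolynomial (X ⊕ Y) ℂ) :
    letI := (base I).toAlgebra
    IsAlgebraic (MvPolynomial X ℂ) (Ideal.Quotient.mk (big I) f) := by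
  letI := (base I).toAlgebra
  have := hI.prime
  have hinj : Function.Injective (algebraMap (MvPolynomial X ℂ)
    (MvPolynomial (X ⊕ Y) ℂ ⧸ big I)) := base_inj hI
  induction f using MvPolynomial.induction_on with
  | C a =>
    have h1 : Ideal.Quotient.mk (big I) (C a) = algebraMap (MvPolynomial X ℂ)
        (MvPolynomial (X ⊕ Y) ℂ ⧸ big I) (C a) := by
      change _ = Ideal.Quotient.mk (big I) (rename Sum.inl (C a))
      rw [rename_C]
    rw [h1]
    exact isAlgebraic_algebraMap _
  | add p q hp hq =>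
    rw [map_add]
    exact hp.add hq
  | mul_X p i hp =>
    rw [map_mul]
    refine hp.mul ?_
    rcases i with i | j
    · have h1 : Ideal.Quotient.mk (big I) (MvPolynomial.X (Sum.inl i)) =
          algebraMap (MvPolynomial X ℂ) (MvPolynomial (X ⊕ Y) ℂ ⧸ big I) (MvPolynomial.X i) := by
        change _ = Ideal.Quotient.mk (big I) (rename Sum.inl (MvPolynomial.X i))
        rw [rename_X]
      rw [h1]
      exact isAlgebraic_algebraMap _
    · obtain ⟨F, hF0, hF⟩ := hI.alg j
      refine ⟨F.map (MvPolynomial.map (algebraMap K ℂ)), ?_, ?_⟩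
      · rw [Polynomial.map_ne_zero_iff (MvPolynomial.map_injective _
          (algebraMap K ℂ).injective)]
        exact hF0
      · have h2 := map_mem_big I _ hF
        have h3 : Ideal.Quotient.mk (big I) (map (algebraMap K ℂ) (F.eval₂
            (rename Sum.inl : MvPolynomial X K →ₐ[K] MvPolynomial (X ⊕ Y) K).toRingHom
            (MvPolynomial.X (Sum.inr j)))) = 0 := Ideal.Quotient.eq_zero_iff_mem.2 h2
        rw [Polynomial.aeval_def, Polynomial.eval₂_map]
        rw [← h3, Polynomial.hom_eval₂, Polynomial.hom_eval₂, map_X]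
        congr 1
        ext x
        · change base I (map (algebraMap K ℂ) (C x)) = Ideal.Quotient.mk (big I)
            (map (algebraMap K ℂ) (rename Sum.inl (C x)))
          rw [map_C, rename_C, map_C]
          change Ideal.Quotient.mk (big I) (rename Sum.inl (C _)) = _
          rw [rename_C]
        · change base I (map (algebraMap K ℂ) (MvPolynomial.X x)) = Ideal.Quotient.mk (big I)
            (map (algebraMap K ℂ) (rename Sum.inl (MvPolynomial.X x)))
          rw [map_X, rename_X, map_X]
          change Ideal.Quotient.mk (big I) (rename Sum.inl (MvPolynomial.X x)) = _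
          rw [rename_X]

/-- **Elimination.** -/
theorem elim {I : Ideal (MvPolynomial (X ⊕ Y) K)} (hI : Gen I) (R : MvPolynomial (X ⊕ Y) ℂ)
    (v : X ⊕ Y → K) (hv : v ∈ zeroLocus K I) (hR : eval (up v) R ≠ 0) :
    ∃ D : MvPolynomial X ℂ, D ≠ 0 ∧ ∀ w : X ⊕ Y → ℂ, (∀ h ∈ I, aeval w h = 0) →
      eval (fun i => w (Sum.inl i)) D ≠ 0 → eval w R ≠ 0 := by
  letI := (base I).toAlgebra
  have := hI.prime
  have h1 : Ideal.Quotient.mk (big I) R ≠ 0 := by
    intro h
    exact hR (mem_big.1 (Ideal.Quotient.eq_zero_iff_mem.1 h) v hv)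
  obtain ⟨D, hD0, hD⟩ := (all_algebraic hI R).exists_nonzero_dvd (mem_nonZeroDivisors_of_ne_zero h1)
  refine ⟨D, hD0, fun w hw hDw hRw => hDw ?_⟩
  obtain ⟨a, ha⟩ := hD
  obtain ⟨A, rfl⟩ := Ideal.Quotient.mk_surjective a
  have h2 : rename Sum.inl D - R * A ∈ big I := by
    rw [← Ideal.Quotient.eq_zero_iff_mem, map_sub, map_mul, sub_eq_zero]
    exact ha
  have h3 := big_le I w hw _ h2
  rw [map_sub, map_mul, hRw, zero_mul, sub_zero, eval_rename] at h3
  exact h3

end

end Pool.Agent.V1132.GE
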