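import Pool.Agent.V1132.GE.Main

set_option autoImplicit false
set_option linter.unusedSectionVars false

/-! Abstract version. -/

namespace Pool.Agent.V1132.GE

open MvPolynomial Cardinal

universe u v

section
variable (K : Type) [Field K] [Algebra K ℂ] [IsAlgClosed K] [Countable K]
variable {Ω : Type u} [Countable Ω] {Y : Ω → Type v} [∀ ω, Finite (Y ω)]
  (kd : ∀ ω, (Y ω → ℂ) → ℝ) (h0 : ∀ ω a, 0 ≤ kd ω a)
  (hcl : ∀ (ω : Ω) (d : ℝ), zeroLocus ℂ (vanishingIdeal ℂ {a | d ≤ kd ω a}) = {a | d ≤ kd ω a})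
include h0 hcl

/-- **Families.** -/
theorem familyG (p : ℕ) :
    ∃ Q : ℕ → MvPolynomial (Fin p) ℂ, (∀ n, Q n ≠ 0) ∧ ∀ z : Fin p → ℂ,
      (∀ n, eval z (Q n) ≠ 0) → AlgebraicIndependent K z ∧
      ∀ (ω : Ω) (a : Y ω → ℂ),
      (∀ t, IsAlgebraic (Algebra.adjoin K (Set.range z)) (a t)) → ∀ ε : ℝ, 0 < ε →
      ∃ b : Y ω → K, (∀ t, a t = 0 → b t = 0) ∧
        kd ω a ≤ kd ω (up b) ∧ kd ω (up b) < kd ω a + ε := by
  classical
  let Dat := Σ ω : Ω, {I : Ideal (MvPolynomial (Fin p ⊕ Y ω) K) // Gen I}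
  have hcI : ∀ ω : Ω, Countable (Ideal (MvPolynomial (Fin p ⊕ Y ω) K)) := by
    intro ω
    have : Countable (MvPolynomial (Fin p ⊕ Y ω) K) := countable_mv
    exact countable_ideal
  have hcD : Countable Dat := inferInstance
  have hcM : Countable (MvPolynomial (Fin p) K) := countable_mv
  have hD : ∀ d : Dat, ∃ D : ℕ → MvPolynomial (Fin p) ℂ, (∀ n, D n ≠ 0) ∧
      ∀ w : Fin p ⊕ Y d.1 → ℂ, (∀ h ∈ d.2.1, aeval w h = 0) →
      (∀ n, eval (fun i => w (Sum.inl i)) (D n) ≠ 0) → ∀ ε : ℝ, 0 < ε →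
      ∃ v ∈ zeroLocus K d.2.1,
        kd d.1 (fun j => w (Sum.inr j)) ≤ kd d.1 (fun j => up v (Sum.inr j)) ∧
        kd d.1 (fun j => up v (Sum.inr j)) < kd d.1 (fun j => w (Sum.inr j)) + ε := by
    rintro ⟨ω, I, hI⟩
    exact limit hI (kd ω) (h0 ω) (hcl ω)
  choose D hD0 hD using hD
  let Ix := (Dat × ℕ) ⊕ {f : MvPolynomial (Fin p) K // f ≠ 0}
  have : Nonempty Ix := ⟨Sum.inr ⟨1, one_ne_zero⟩⟩
  obtain ⟨e, he⟩ := exists_surjective_nat Ix
  let Q : Ix → MvPolynomial (Fin p) ℂ := Sum.elim (fun x => D x.1 x.2)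
    (fun f => MvPolynomial.map (algebraMap K ℂ) f.1)
  have hQ0 : ∀ x, Q x ≠ 0 := by
    rintro (x | f)
    · exact hD0 _ _
    · intro h
      apply f.2
      apply MvPolynomial.map_injective _ (algebraMap K ℂ).injective
      rw [map_zero]
      exact h
  refine ⟨fun n => Q (e n), fun n => hQ0 _, fun z hz => ?_⟩
  have hz' : ∀ x, eval z (Q x) ≠ 0 := by
    intro x
    obtain ⟨n, rfl⟩ := he x
    exact hz n
  refine ⟨?_, fun ω a ha ε hε => ?_⟩
  · rw [algebraicIndependent_iff]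
    intro f hf
    by_contra hne
    apply hz' (Sum.inr ⟨f, hne⟩)
    change eval z (MvPolynomial.map (algebraMap K ℂ) f) = 0
    rw [eval_map]
    exact hf
  let w : Fin p ⊕ Y ω → ℂ := Sum.elim z a
  let I : Ideal (MvPolynomial (Fin p ⊕ Y ω) K) :=
    RingHom.ker (aeval w : MvPolynomial (Fin p ⊕ Y ω) K →ₐ[K] ℂ)
  have hI : Gen I := by
    refine ⟨RingHom.ker_isPrime _, ?_, ?_⟩
    · intro f hf
      by_contra hne
      apply hz' (Sum.inr ⟨f, hne⟩)
      have h1 : aeval w (rename Sum.inl f) = 0 := hf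
      rw [aeval_rename] at h1
      change eval z (MvPolynomial.map (algebraMap K ℂ) f) = 0
      rw [eval_map]
      exact h1
    · intro j
      obtain ⟨q, hq0, hq⟩ := ha j
      let ρ : MvPolynomial (Fin p) K →+* Algebra.adjoin K (Set.range z) :=
        ((aeval z : MvPolynomial (Fin p) K →ₐ[K] ℂ).codRestrict (Algebra.adjoin K (Set.range z))
          (fun f => by
            rw [Algebra.adjoin_range_eq_range_aeval]
            exact ⟨f, rfl⟩)).toRingHom
      have hρ : Function.Surjective ρ := by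
        rintro ⟨y, hy⟩
        rw [Algebra.adjoin_range_eq_range_aeval] at hy
        obtain ⟨f, hf⟩ := hy
        exact ⟨f, Subtype.ext hf⟩
      obtain ⟨F, hF⟩ := Polynomial.map_surjective ρ hρ q
      refine ⟨F, ?_, ?_⟩
      · rintro rfl
        apply hq0
        rw [← hF, Polynomial.map_zero]
      · change aeval w _ = 0
        have h1 : (aeval w : MvPolynomial (Fin p ⊕ Y ω) K →ₐ[K] ℂ).toRingHom
            (F.eval₂ (rename Sum.inl : MvPolynomial (Fin p) K →ₐ[K]
              MvPolynomial (Fin p ⊕ Y ω) K).toRingHom (MvPolynomial.X (Sum.inr j))) =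
            F.eval₂ ((algebraMap (Algebra.adjoin K (Set.range z)) ℂ).comp ρ) (a j) := by
          rw [Polynomial.hom_eval₂]
          congr 1
          · ext x
            · change aeval w (rename Sum.inl (C x)) = aeval z (C x)
              rw [aeval_rename]
              rfl
            · change aeval w (rename Sum.inl (MvPolynomial.X x)) = aeval z (MvPolynomial.X x)
              rw [aeval_rename]
              rfl
          · change aeval w (MvPolynomial.X (Sum.inr j)) = a j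
            rw [aeval_X]
            rfl
        have h2 : F.eval₂ ((algebraMap (Algebra.adjoin K (Set.range z)) ℂ).comp ρ) (a j) = 0 := by
          rw [← Polynomial.eval₂_map, hF]
          exact hq
        exact h1.trans h2
  obtain ⟨v, hv, h1, h2⟩ := hD ⟨ω, I, hI⟩ w (fun h hh => hh)
    (fun n => hz' (Sum.inl (⟨ω, I, hI⟩, n))) ε hε
  refine ⟨fun t => v (Sum.inr t), fun t ht => ?_, h1, h2⟩
  have h3 : (MvPolynomial.X (Sum.inr t) : MvPolynomial (Fin p ⊕ Y ω) K) ∈ I := by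
    change aeval w (MvPolynomial.X (Sum.inr t)) = 0
    rw [aeval_X]
    exact ht
  have h4 := hv _ h3
  rw [aeval_X] at h4
  exact h4

/-- **The embedding.** -/
theorem exists_embeddingG : ∃ σ : ℂ →+* ℂ, (∀ x : K, σ (algebraMap K ℂ x) = algebraMap K ℂ x) ∧
    ∀ (ω : Ω) (a : Y ω → ℂ) (ε : ℝ), 0 < ε →
      ∃ b : Y ω → K, (∀ t, a t = 0 → b t = 0) ∧
        kd ω (fun t => σ (a t)) ≤ kd ω (up b) ∧
        kd ω (up b) < kd ω (fun t => σ (a t)) + ε := by
  choose Q hQ0 hQ using familyG K kd h0 hcl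
  obtain ⟨S, hgood, hS⟩ := exists_good Q hQ0
  have hind : AlgebraicIndependent K ((↑) : S → ℂ) := by
    apply algebraicIndependent_of_finite
    intro t ht hfin
    obtain ⟨p, z, hz, hzR⟩ := hgood hfin.toFinset (by rw [Set.Finite.coe_toFinset]; exact ht)
    rw [Set.Finite.coe_toFinset] at hz
    exact (hQ p z (fun n => hzR _ (Set.mem_iUnion.2 ⟨0, n, rfl⟩))).1.to_subtype_range' hz
  obtain ⟨σ, hσK, hσ⟩ := exists_copy K S hS hind
  refine ⟨σ, hσK, fun ω a ε hε => ?_⟩
  obtain ⟨F, hF, halg⟩ := fin_alg' K S (fun t => σ (a t)) (fun t => hσ _)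
  obtain ⟨p, z, hz, hzR⟩ := hgood F hF
  obtain ⟨b, hb0, hb1, hb2⟩ := (hQ p z (fun n => hzR _ (Set.mem_iUnion.2 ⟨0, n, rfl⟩))).2 ω
    (fun t => σ (a t)) (fun t => by rw [hz]; exact halg t) ε hε
  refine ⟨b, fun t ht => hb0 t ?_, hb1, hb2⟩
  rw [ht, map_zero]

end

end Pool.Agent.V1132.GE
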