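import Pool.Agent.V1132.GE.Alg
import Pool.Agent.W649.ZL.Supp
import Pool.Agent.W649.ZL.Fam
import Pool.Agent.W649.ZL.Mat

set_option autoImplicit false
set_option linter.unusedSectionVars false

/-! Limits of kernel dimensions. -/

namespace Pool.Agent.V1132.GE

open MvPolynomial

universe u v

section
variable {K : Type} [Field K] [Algebra K ℂ] [IsAlgClosed K] {X : Type u} {Y : Type v} [Finite X]
  [Finite Y]

theorem limit {I : Ideal (MvPolynomial (X ⊕ Y) K)} (hI : Gen I)
    (kd : (Y → ℂ) → ℝ) (hkd : ∀ a, 0 ≤ kd a)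
    (hcl : ∀ d : ℝ, zeroLocus ℂ (vanishingIdeal ℂ {a | d ≤ kd a}) = {a | d ≤ kd a}) :
    ∃ D : ℕ → MvPolynomial X ℂ, (∀ n, D n ≠ 0) ∧ ∀ w : X ⊕ Y → ℂ, (∀ h ∈ I, aeval w h = 0) →
      (∀ n, eval (fun i => w (Sum.inl i)) (D n) ≠ 0) → ∀ ε : ℝ, 0 < ε →
      ∃ v ∈ zeroLocus K I, kd (fun j => w (Sum.inr j)) ≤ kd (fun j => up v (Sum.inr j)) ∧
        kd (fun j => up v (Sum.inr j)) < kd (fun j => w (Sum.inr j)) + ε := by
  classical
  have hprime := hI.prime
  obtain ⟨v₀, hv₀, -⟩ := exists_point I 1 (by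
    rw [← Ideal.eq_top_iff_one]
    exact hprime.ne_top)
  have : Nonempty (zeroLocus K I) := ⟨⟨v₀, hv₀⟩⟩
  let f : zeroLocus K I → ℝ := fun v => kd (fun j => up v.1 (Sum.inr j))
  have hbdd : BddBelow (Set.range f) := ⟨0, by rintro _ ⟨v, rfl⟩; exact hkd _⟩
  set g : ℝ := ⨅ v, f v with hg
  have hgle : ∀ v, g ≤ f v := fun v => ciInf_le hbdd v
  have hex : ∀ ε : ℝ, 0 < ε → ∃ v : zeroLocus K I, f v < g + ε := by
    intro ε hε
    exact exists_lt_of_ciInf_lt (by rw [← hg]; linarith)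
  have step : ∀ n : ℕ, ∃ D : MvPolynomial X ℂ, D ≠ 0 ∧ ∀ w : X ⊕ Y → ℂ,
      (∀ h ∈ I, aeval w h = 0) → eval (fun i => w (Sum.inl i)) D ≠ 0 →
      kd (fun j => w (Sum.inr j)) < g + 1 / ((n : ℝ) + 1) := by
    intro n
    obtain ⟨v, hv⟩ := hex (1 / ((n : ℝ) + 1)) (by positivity)
    have h1 : (fun j => up v.1 (Sum.inr j)) ∉
        {a : Y → ℂ | g + 1 / ((n : ℝ) + 1) ≤ kd a} := fun h => absurd h (not_le.2 hv)
    rw [← hcl, mem_zeroLocus_iff] at h1
    push Not at h1
    obtain ⟨R, hR, hRv⟩ := h1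
    rw [ae] at hRv
    obtain ⟨D, hD0, hD⟩ := elim hI (rename Sum.inr R) v.1 v.2 (by
      rw [eval_rename]
      exact hRv)
    refine ⟨D, hD0, fun w hw hDw => ?_⟩
    have h2 := hD w hw hDw
    rw [eval_rename] at h2
    by_contra hcon
    push Not at hcon
    have h3 := hR (fun j => w (Sum.inr j)) hcon
    rw [ae] at h3
    exact h2 h3
  choose D hD0 hD using step
  refine ⟨D, hD0, fun w hw hDw ε hε => ?_⟩
  have hup : kd (fun j => w (Sum.inr j)) ≤ g := by
    by_contra hcon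
    push Not at hcon
    obtain ⟨n, hn⟩ := exists_nat_one_div_lt (sub_pos.2 hcon)
    have := hD n w hw (hDw n)
    linarith
  have hlow : g ≤ kd (fun j => w (Sum.inr j)) := by
    by_contra hcon
    have h1 : (fun j => w (Sum.inr j)) ∉ {a : Y → ℂ | g ≤ kd a} := hcon
    rw [← hcl, mem_zeroLocus_iff] at h1
    push Not at h1
    obtain ⟨R, hR, hRw⟩ := h1
    rw [ae] at hRw
    apply hRw
    have h2 : rename Sum.inr R ∈ big I := by
      rw [mem_big]
      intro v hv
      rw [eval_rename]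
      have h3 := hR (fun j => up v (Sum.inr j)) (hgle ⟨v, hv⟩)
      rw [ae] at h3
      exact h3
    have h3 := big_le I w hw _ h2
    rw [eval_rename] at h3
    exact h3
  obtain ⟨v, hv⟩ := hex ε hε
  refine ⟨v.1, v.2, hup.trans (hgle v), ?_⟩
  have h1 : f v < g + ε := hv
  have h2 : kd (fun j => up v.1 (Sum.inr j)) = f v := rfl
  rw [h2]
  linarith

end

theorem countable_mv {K : Type} [Field K] [Countable K] {Z : Type u} [Finite Z] :
    Countable (MvPolynomial Z K) := by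
  rw [← Cardinal.mk_le_aleph0_iff]
  refine (cardinalMk_le_max_lift).trans ?_
  simp only [max_le_iff, Cardinal.lift_le_aleph0, Cardinal.mk_le_aleph0_iff]
  exact ⟨⟨inferInstance, Finite.to_countable⟩, le_rfl⟩

theorem countable_ideal {R : Type u} [CommRing R] [IsNoetherianRing R] [Countable R] :
    Countable (Ideal R) := by
  have h : Function.Surjective (fun S : Finset R => Ideal.span (S : Set R)) := by
    intro I
    obtain ⟨S, hS⟩ := (isNoetherianRing_iff_ideal_fg R).1 inferInstance I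
    exact ⟨S, hS⟩
  exact h.countable

section
variable {G : Type u} [Group G] [Countable G] (K : Type) [Field K] [Algebra K ℂ] [IsAlgClosed K]
  [Countable K]

/-- kernel dimensions -/
noncomputable def kdim (T : Finset G) (m l : ℕ) (a : T × Fin m × Fin l → ℂ) : ℝ :=
  W649.ZL.vd (LinearMap.ker (W649.ZL.lin (W649.ZL.famR (fun i : T × Fin m × Fin l => (i.1 : G))
    (fun i => i.2.1) (fun i => i.2.2)) a :
      W649.ZL.EE G (Fin m) →ₗ[ℂ] W649.ZL.EE G (Fin l)))

/-- **Families.** -/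
theorem family (p : ℕ) :
    ∃ Q : ℕ → MvPolynomial (Fin p) ℂ, (∀ n, Q n ≠ 0) ∧ ∀ z : Fin p → ℂ,
      (∀ n, eval z (Q n) ≠ 0) → AlgebraicIndependent K z ∧
      ∀ (m l : ℕ) (T : Finset G) (a : T × Fin m × Fin l → ℂ),
      (∀ t, IsAlgebraic (Algebra.adjoin K (Set.range z)) (a t)) → ∀ ε : ℝ, 0 < ε →
      ∃ b : T × Fin m × Fin l → K, (∀ t, a t = 0 → b t = 0) ∧
        kdim T m l a ≤ kdim T m l (up b) ∧ kdim T m l (up b) < kdim T m l a + ε := by
  classical
  let Y : ℕ → ℕ → Finset G → Type u := fun m l T => T × Fin m × Fin l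
  let Dat := Σ m : ℕ, Σ l : ℕ, Σ T : Finset G,
    {I : Ideal (MvPolynomial (Fin p ⊕ Y m l T) K) // Gen I}
  have hcI : ∀ (m l : ℕ) (T : Finset G), Countable (Ideal (MvPolynomial (Fin p ⊕ Y m l T) K)) := by
    intro m l T
    have : Countable (MvPolynomial (Fin p ⊕ Y m l T) K) := countable_mv
    exact countable_ideal
  have hcD : Countable Dat := inferInstance
  have hcM : Countable (MvPolynomial (Fin p) K) := countable_mv
  have hD : ∀ d : Dat, ∃ D : ℕ → MvPolynomial (Fin p) ℂ, (∀ n, D n ≠ 0) ∧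
      ∀ w : Fin p ⊕ Y d.1 d.2.1 d.2.2.1 → ℂ, (∀ h ∈ d.2.2.2.1, aeval w h = 0) →
      (∀ n, eval (fun i => w (Sum.inl i)) (D n) ≠ 0) → ∀ ε : ℝ, 0 < ε →
      ∃ v ∈ zeroLocus K d.2.2.2.1,
        kdim d.2.2.1 d.1 d.2.1 (fun j => w (Sum.inr j)) ≤
          kdim d.2.2.1 d.1 d.2.1 (fun j => up v (Sum.inr j)) ∧
        kdim d.2.2.1 d.1 d.2.1 (fun j => up v (Sum.inr j)) <
          kdim d.2.2.1 d.1 d.2.1 (fun j => w (Sum.inr j)) + ε := by
    rintro ⟨m, l, T, I, hI⟩
    exact limit hI (kdim T m l) (fun a => W649.ZL.vd_nonneg _) (fun d =>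
      W649.ZL.locus_closed (W649.ZL.famR (fun i : T × Fin m × Fin l => (i.1 : G))
        (fun i => i.2.1) (fun i => i.2.2)) (W649.ZL.famR_eqv _ _ _) d)
  choose D hD0 hD using hD
  let Ix := (Dat × ℕ) ⊕ {f : MvPolynomial (Fin p) K // f ≠ 0}
  have : Nonempty Ix := ⟨Sum.inr ⟨1, one_ne_zero⟩⟩
  obtain ⟨e, he⟩ := exists_surjective_nat Ix
  let Q : Ix → MvPolynomial (Fin p) ℂ := Sum.elim (fun x => D x.1 x.2)
    (fun f => MvPolynomial.map (algebraMap K ℂ) f.1)
  have hQ0 : ∀ x, Q x ≠ 0 := by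
    rintro (x | f)
    · exact hD0 _ _
    · intro h
      apply f.2
      apply MvPolynomial.map_injective _ (algebraMap K ℂ).injective
      rw [map_zero]
      exact h
  refine ⟨fun n => Q (e n), fun n => hQ0 _, fun z hz => ?_⟩
  have hz' : ∀ x, eval z (Q x) ≠ 0 := by
    intro x
    obtain ⟨n, rfl⟩ := he x
    exact hz n
  refine ⟨?_, fun m l T a ha ε hε => ?_⟩
  · rw [algebraicIndependent_iff]
    intro f hf
    by_contra hne
    apply hz' (Sum.inr ⟨f, hne⟩)
    change eval z (MvPolynomial.map (algebraMap K ℂ) f) = 0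
    rw [eval_map]
    exact hf
  let w : Fin p ⊕ Y m l T → ℂ := Sum.elim z a
  let I : Ideal (MvPolynomial (Fin p ⊕ Y m l T) K) :=
    RingHom.ker (aeval w : MvPolynomial (Fin p ⊕ Y m l T) K →ₐ[K] ℂ)
  have hI : Gen I := by
    refine ⟨RingHom.ker_isPrime _, ?_, ?_⟩
    · intro f hf
      by_contra hne
      apply hz' (Sum.inr ⟨f, hne⟩)
      have h1 : aeval w (rename Sum.inl f) = 0 := hf
      rw [aeval_rename] at h1
      change eval z (MvPolynomial.map (algebraMap K ℂ) f) = 0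
      rw [eval_map]
      exact h1
    · intro j
      obtain ⟨q, hq0, hq⟩ := ha j
      let ρ : MvPolynomial (Fin p) K →+* Algebra.adjoin K (Set.range z) :=
        ((aeval z : MvPolynomial (Fin p) K →ₐ[K] ℂ).codRestrict (Algebra.adjoin K (Set.range z))
          (fun f => by
            rw [Algebra.adjoin_range_eq_range_aeval]
            exact ⟨f, rfl⟩)).toRingHom
      have hρ : Function.Surjective ρ := by
        rintro ⟨y, hy⟩
        rw [Algebra.adjoin_range_eq_range_aeval] at hy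
        obtain ⟨f, hf⟩ := hy
        exact ⟨f, Subtype.ext hf⟩
      obtain ⟨F, hF⟩ := Polynomial.map_surjective ρ hρ q
      refine ⟨F, ?_, ?_⟩
      · rintro rfl
        apply hq0
        rw [← hF, Polynomial.map_zero]
      · change aeval w _ = 0
        have h1 : (aeval w : MvPolynomial (Fin p ⊕ Y m l T) K →ₐ[K] ℂ).toRingHom
            (F.eval₂ (rename Sum.inl : MvPolynomial (Fin p) K →ₐ[K]
              MvPolynomial (Fin p ⊕ Y m l T) K).toRingHom (MvPolynomial.X (Sum.inr j))) =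
            F.eval₂ ((algebraMap (Algebra.adjoin K (Set.range z)) ℂ).comp ρ) (a j) := by
          rw [Polynomial.hom_eval₂]
          congr 1
          · ext x
            · change aeval w (rename Sum.inl (C x)) = aeval z (C x)
              rw [aeval_rename]
              rfl
            · change aeval w (rename Sum.inl (MvPolynomial.X x)) = aeval z (MvPolynomial.X x)
              rw [aeval_rename]
              rfl
          · change aeval w (MvPolynomial.X (Sum.inr j)) = a j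
            rw [aeval_X]
            rfl
        have h2 : F.eval₂ ((algebraMap (Algebra.adjoin K (Set.range z)) ℂ).comp ρ) (a j) = 0 := by
          rw [← Polynomial.eval₂_map, hF]
          exact hq
        exact h1.trans h2
  obtain ⟨v, hv, h1, h2⟩ := hD ⟨m, l, T, I, hI⟩ w (fun h hh => hh)
    (fun n => hz' (Sum.inl (⟨m, l, T, I, hI⟩, n))) ε hε
  refine ⟨fun t => v (Sum.inr t), fun t ht => ?_, h1, h2⟩
  have h3 : (MvPolynomial.X (Sum.inr t) : MvPolynomial (Fin p ⊕ Y m l T) K) ∈ I := by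
    change aeval w (MvPolynomial.X (Sum.inr t)) = 0
    rw [aeval_X]
    exact ht
  have h4 := hv _ h3
  rw [aeval_X] at h4
  exact h4

end

end Pool.Agent.V1132.GE
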