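import Mathlib

set_option autoImplicit false
set_option linter.unusedSectionVars false

/-! A set of size continuum all of whose finite subsets avoid given families of hypersurfaces. -/

namespace Pool.Agent.V1132.GE

open MvPolynomial Cardinal

/-- leading coefficient in the first variable -/
noncomputable def lc {p : ℕ} (Q : MvPolynomial (Fin (p + 1)) ℂ) : MvPolynomial (Fin p) ℂ :=
  (finSuccEquiv ℂ p Q).leadingCoeff

theorem lc_ne {p : ℕ} (Q : MvPolynomial (Fin (p + 1)) ℂ) (h : Q ≠ 0) : lc Q ≠ 0 := by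
  unfold lc
  rw [Polynomial.leadingCoeff_ne_zero]
  intro h0
  exact h ((map_eq_zero_iff _ (finSuccEquiv ℂ p).injective).1 h0)

theorem lc_finite {p : ℕ} (Q : MvPolynomial (Fin (p + 1)) ℂ) (y : Fin p → ℂ)
    (h : eval y (lc Q) ≠ 0) : {t : ℂ | eval (Fin.cons t y : Fin (p + 1) → ℂ) Q = 0}.Finite := by
  have hq : (finSuccEquiv ℂ p Q).map (eval y) ≠ 0 := by
    intro h0
    apply h
    have := congrArg (fun q => q.coeff (finSuccEquiv ℂ p Q).natDegree) h0
    simpa [Polynomial.coeff_map, lc] using this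
  refine ((((finSuccEquiv ℂ p Q).map (eval y)).roots.toFinset).finite_toSet).subset ?_
  intro t ht
  rw [Finset.mem_coe, Multiset.mem_toFinset, Polynomial.mem_roots hq, Polynomial.IsRoot.def,
    ← eval_eq_eval_mv_eval']
  exact ht

/-- levels -/
def lev (Q : ∀ p : ℕ, ℕ → MvPolynomial (Fin p) ℂ) : ℕ → ∀ p : ℕ, Set (MvPolynomial (Fin p) ℂ)
  | 0, p => Set.range (Q p)
  | k + 1, p => lc '' (lev Q k (p + 1))

/-- the closed family -/
def clo (Q : ∀ p : ℕ, ℕ → MvPolynomial (Fin p) ℂ) (p : ℕ) : Set (MvPolynomial (Fin p) ℂ) :=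
  ⋃ k, lev Q k p

theorem lev_countable (Q : ∀ p : ℕ, ℕ → MvPolynomial (Fin p) ℂ) (k : ℕ) :
    ∀ p, (lev Q k p).Countable := by
  induction k with
  | zero => exact fun p => Set.countable_range _
  | succ k ih => exact fun p => (ih (p + 1)).image _

theorem clo_countable (Q : ∀ p : ℕ, ℕ → MvPolynomial (Fin p) ℂ) (p : ℕ) : (clo Q p).Countable :=
  Set.countable_iUnion fun k => lev_countable Q k p

theorem lev_ne (Q : ∀ p : ℕ, ℕ → MvPolynomial (Fin p) ℂ) (hQ : ∀ p n, Q p n ≠ 0) (k : ℕ) :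
    ∀ p, ∀ R ∈ lev Q k p, R ≠ 0 := by
  induction k with
  | zero =>
    rintro p _ ⟨n, rfl⟩
    exact hQ p n
  | succ k ih =>
    rintro p _ ⟨R, hR, rfl⟩
    exact lc_ne R (ih (p + 1) R hR)

theorem clo_ne (Q : ∀ p : ℕ, ℕ → MvPolynomial (Fin p) ℂ) (hQ : ∀ p n, Q p n ≠ 0) (p : ℕ) :
    ∀ R ∈ clo Q p, R ≠ 0 := by
  intro R hR
  obtain ⟨k, hk⟩ := Set.mem_iUnion.1 hR
  exact lev_ne Q hQ k p R hk

theorem lc_mem (Q : ∀ p : ℕ, ℕ → MvPolynomial (Fin p) ℂ) (p : ℕ)
    (R : MvPolynomial (Fin (p + 1)) ℂ) (hR : R ∈ clo Q (p + 1)) : lc R ∈ clo Q p := by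
  obtain ⟨k, hk⟩ := Set.mem_iUnion.1 hR
  exact Set.mem_iUnion.2 ⟨k + 1, R, hk, rfl⟩

/-- all finite subsets of `S` avoid the family, in some order -/
def Good (Q : ∀ p : ℕ, ℕ → MvPolynomial (Fin p) ℂ) (S : Set ℂ) : Prop :=
  ∀ F : Finset ℂ, (F : Set ℂ) ⊆ S → ∃ (p : ℕ) (z : Fin p → ℂ), Set.range z = F ∧
    ∀ R ∈ clo Q p, eval z R ≠ 0

theorem good_empty (Q : ∀ p : ℕ, ℕ → MvPolynomial (Fin p) ℂ) (hQ : ∀ p n, Q p n ≠ 0) :
    Good Q ∅ := by
  intro F hF
  refine ⟨0, fun i => i.elim0, ?_, ?_⟩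
  · rw [Set.subset_empty_iff.1 hF]
    exact Set.range_eq_empty _
  · intro R hR h
    apply clo_ne Q hQ 0 R hR
    rw [eq_C_of_isEmpty R] at h ⊢
    rw [eval_C] at h
    rw [h, map_zero]

theorem chain_finset (c : Set (Set ℂ)) (hc : IsChain (· ⊆ ·) c) (hne : c.Nonempty) (F : Finset ℂ)
    (hF : (F : Set ℂ) ⊆ ⋃₀ c) : ∃ s ∈ c, (F : Set ℂ) ⊆ s := by
  classical
  induction F using Finset.induction_on with
  | empty =>
    obtain ⟨s, hs⟩ := hne
    exact ⟨s, hs, by simp⟩
  | insert a F _ ih =>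
    rw [Finset.coe_insert, Set.insert_subset_iff] at hF
    obtain ⟨s, hs, h1⟩ := ih hF.2
    obtain ⟨t, ht, h2⟩ := hF.1
    rcases hc.total hs ht with h | h
    · refine ⟨t, ht, ?_⟩
      rw [Finset.coe_insert, Set.insert_subset_iff]
      exact ⟨h2, h1.trans h⟩
    · refine ⟨s, hs, ?_⟩
      rw [Finset.coe_insert, Set.insert_subset_iff]
      exact ⟨h h2, h1⟩

theorem small_union (S : Set ℂ) (hS : #S < 𝔠) (B : Finset S → Set ℂ)
    (hB : ∀ F, (B F).Countable) : #(S ∪ ⋃ F, B F : Set ℂ) < 𝔠 := by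
  have h1 : #(⋃ F, B F : Set ℂ) < 𝔠 := by
    refine (mk_iUnion_le B).trans_lt ?_
    have h2 : ⨆ F, #(B F) ≤ ℵ₀ := ciSup_le' fun F => (mk_le_aleph0_iff.2 (hB F).to_subtype)
    refine (mul_le_mul' le_rfl h2).trans_lt ?_
    rcases finite_or_infinite S with h | h
    · have h3 : #(Finset S) ≤ ℵ₀ := mk_le_aleph0
      exact (mul_le_mul' h3 le_rfl).trans_lt (by
        rw [aleph0_mul_aleph0]
        exact aleph0_lt_continuum)
    · rw [mk_finset_of_infinite, mul_aleph0_eq (aleph0_le_mk S)]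
      exact hS
  refine (mk_union_le _ _).trans_lt ?_
  exact add_lt_of_lt aleph0_le_continuum hS h1

/-- **A large generic set.** -/
theorem exists_good (Q : ∀ p : ℕ, ℕ → MvPolynomial (Fin p) ℂ) (hQ : ∀ p n, Q p n ≠ 0) :
    ∃ S : Set ℂ, Good Q S ∧ #S = 𝔠 := by
  classical
  obtain ⟨S, hS⟩ := zorn_subset {S : Set ℂ | Good Q S} (by
    intro c hcS hc
    rcases c.eq_empty_or_nonempty with rfl | hne
    · exact ⟨∅, good_empty Q hQ, by simp⟩
    · refine ⟨⋃₀ c, ?_, fun s hs => Set.subset_sUnion_of_mem hs⟩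
      intro F hF
      obtain ⟨s, hs, h⟩ := chain_finset c hc hne F hF
      exact hcS hs F h)
  refine ⟨S, hS.prop, ?_⟩
  apply le_antisymm
  · rw [← mk_complex]
    exact mk_set_le S
  by_contra hcon
  push Not at hcon
  have hgood : Good Q S := hS.prop
  choose p z hz1 hz2 using fun F : Finset S => hgood (F.map (Function.Embedding.subtype _)) (by
    intro x hx
    rw [Finset.mem_coe, Finset.mem_map] at hx
    obtain ⟨y, _, rfl⟩ := hx
    exact y.2)
  let B : Finset S → Set ℂ := fun F => ⋃ R ∈ clo Q (p F + 1),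
    {t : ℂ | eval (Fin.cons t (z F) : Fin (p F + 1) → ℂ) R = 0}
  have hB : ∀ F, (B F).Countable := by
    intro F
    apply Set.Countable.biUnion (clo_countable Q _)
    intro R hR
    exact (lc_finite R (z F) (hz2 F _ (lc_mem Q _ R hR))).countable
  have h1 := small_union S hcon B hB
  obtain ⟨t, ht⟩ : ∃ t : ℂ, t ∉ (S ∪ ⋃ F, B F : Set ℂ) := by
    by_contra h
    push Not at h
    have h2 : (S ∪ ⋃ F, B F : Set ℂ) = Set.univ := Set.eq_univ_of_forall h
    rw [h2, mk_univ, mk_complex] at h1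
    exact lt_irrefl _ h1
  rw [Set.mem_union, not_or] at ht
  have h3 : Good Q (insert t S) := by
    intro F hF
    by_cases htF : t ∈ F
    · have h4 : ((F.erase t : Finset ℂ) : Set ℂ) ⊆ S := by
        intro x hx
        rw [Finset.mem_coe, Finset.mem_erase] at hx
        rcases hF hx.2 with h | h
        · exact absurd h hx.1
        · exact h
      let F' : Finset S := (F.erase t).subtype (· ∈ S)
      have h5 : F'.map (Function.Embedding.subtype _) = F.erase t := by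
        apply Finset.subtype_map_of_mem
        intro x hx
        exact h4 hx
      refine ⟨p F' + 1, Fin.cons t (z F'), ?_, ?_⟩
      · rw [Fin.range_cons, hz1 F', h5, ← Finset.coe_insert, Finset.insert_erase htF]
      · intro R hR h6
        apply ht.2
        rw [Set.mem_iUnion]
        refine ⟨F', ?_⟩
        rw [Set.mem_iUnion₂]
        exact ⟨R, hR, h6⟩
    · apply hgood F
      intro x hx
      rcases hF hx with h | h
      · exfalso
        apply htF
        rw [← h]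
        exact hx
      · exact h
  exact ht.1 (hS.le_of_ge h3 (Set.subset_insert t S) (Set.mem_insert t S))

end Pool.Agent.V1132.GE
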