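import Pool.Agent.V1132.GE.Lim
import Pool.Agent.V1132.GE.Zorn

set_option autoImplicit false
set_option linter.unusedSectionVars false

/-! The embedding of the complex numbers. -/

namespace Pool.Agent.V1132.GE

open MvPolynomial Cardinal

universe u

section
variable (K : Type) [Field K] [Algebra K ℂ]

open scoped IntermediateField.algebraAdjoinAdjoin in
theorem fin_alg (S : Set ℂ) (x : ℂ) (hx : IsAlgebraic (IntermediateField.adjoin K S) x) :
    ∃ F : Finset ℂ, (F : Set ℂ) ⊆ S ∧ IsAlgebraic (Algebra.adjoin K (F : Set ℂ)) x := by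
  classical
  obtain ⟨q, hq0, hq⟩ := hx
  choose F hF1 hF2 using fun n : ℕ => IntermediateField.exists_finset_of_mem_adjoin (q.coeff n).2
  let F' : Finset ℂ := (Finset.range (q.natDegree + 1)).biUnion F
  have hF' : (F' : Set ℂ) ⊆ S := by
    intro y hy
    rw [Finset.mem_coe, Finset.mem_biUnion] at hy
    obtain ⟨n, _, hn⟩ := hy
    exact hF1 n hn
  refine ⟨F', hF', ?_⟩
  have h1 : q.map (algebraMap (IntermediateField.adjoin K S) ℂ) ∈
      Polynomial.lifts (algebraMap (IntermediateField.adjoin K (F' : Set ℂ)) ℂ) := by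
    rw [Polynomial.lifts_iff_coeff_lifts]
    intro n
    rw [Polynomial.coeff_map]
    by_cases hn : n < q.natDegree + 1
    · have h2 : F n ⊆ F' := Finset.subset_biUnion_of_mem F (Finset.mem_range.2 hn)
      have h3 : (q.coeff n : ℂ) ∈ IntermediateField.adjoin K (F' : Set ℂ) :=
        IntermediateField.adjoin.mono K _ _ (Finset.coe_subset.2 h2) (hF2 n)
      exact ⟨⟨_, h3⟩, rfl⟩
    · rw [Polynomial.coeff_eq_zero_of_natDegree_lt (by omega)]
      exact ⟨0, by simp⟩
  obtain ⟨r, hr⟩ := (Polynomial.mem_lifts _).1 h1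
  have h2 : IsAlgebraic (IntermediateField.adjoin K (F' : Set ℂ)) x := by
    refine ⟨r, ?_, ?_⟩
    · rintro rfl
      rw [Polynomial.map_zero] at hr
      apply hq0
      exact (Polynomial.map_eq_zero _).1 hr.symm
    · rw [Polynomial.aeval_def, ← Polynomial.eval_map, hr, Polynomial.eval_map]
      exact hq
  exact (IsFractionRing.isAlgebraic_iff (Algebra.adjoin K (F' : Set ℂ))
    (IntermediateField.adjoin K (F' : Set ℂ)) ℂ).2 h2

theorem fin_alg' (S : Set ℂ) {ι : Type u} [Finite ι] (x : ι → ℂ)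
    (hx : ∀ i, IsAlgebraic (IntermediateField.adjoin K S) (x i)) :
    ∃ F : Finset ℂ, (F : Set ℂ) ⊆ S ∧
      ∀ i, IsAlgebraic (Algebra.adjoin K (F : Set ℂ)) (x i) := by
  classical
  cases nonempty_fintype ι
  choose F hF1 hF2 using fun i => fin_alg K S (x i) (hx i)
  refine ⟨Finset.univ.biUnion F, ?_, fun i => ?_⟩
  · intro y hy
    rw [Finset.mem_coe, Finset.mem_biUnion] at hy
    obtain ⟨n, _, hn⟩ := hy
    exact hF1 n hn
  · have h1 : Algebra.adjoin K (F i : Set ℂ) ≤
        Algebra.adjoin K ((Finset.univ.biUnion F : Finset ℂ) : Set ℂ) :=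
      Algebra.adjoin_mono (Finset.coe_subset.2 (Finset.subset_biUnion_of_mem F (Finset.mem_univ i)))
    obtain ⟨q, hq0, hq⟩ := hF2 i
    refine ⟨q.map (Subalgebra.inclusion h1).toRingHom, ?_, ?_⟩
    · rw [Polynomial.map_ne_zero_iff (Subalgebra.inclusion_injective h1)]
      exact hq0
    · rw [Polynomial.aeval_def, Polynomial.eval₂_map]
      exact hq

theorem alg_of_field (S : Set ℂ) (x : ℂ) (hx : IsAlgebraic (IntermediateField.adjoin K S) x) :
    IsAlgebraic (Algebra.adjoin K S) x := by
  obtain ⟨F, hF, q, hq0, hq⟩ := fin_alg K S x hx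
  have h1 : Algebra.adjoin K (F : Set ℂ) ≤ Algebra.adjoin K S := Algebra.adjoin_mono hF
  refine ⟨q.map (Subalgebra.inclusion h1).toRingHom, ?_, ?_⟩
  · rw [Polynomial.map_ne_zero_iff (Subalgebra.inclusion_injective h1)]
    exact hq0
  · rw [Polynomial.aeval_def, Polynomial.eval₂_map]
    exact hq

/-- the version with subfields -/
theorem alg_closure {p : ℕ} (K : Subfield ℂ) (z : Fin p → ℂ) (x : ℂ)
    (hx : IsAlgebraic (Subfield.closure (K ∪ Set.range z)) x) :
    IsAlgebraic (Algebra.adjoin K (Set.range z)) x := by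
  apply alg_of_field
  obtain ⟨q, hq0, hq⟩ := hx
  have h1 : ∀ y ∈ Subfield.closure (K ∪ Set.range z),
      y ∈ IntermediateField.adjoin K (Set.range z) := by
    intro y hy
    have h2 : Subfield.closure (K ∪ Set.range z) ≤
        (IntermediateField.adjoin K (Set.range z)).toSubfield := by
      rw [Subfield.closure_le, Set.union_subset_iff]
      constructor
      · intro a ha
        exact (IntermediateField.adjoin K (Set.range z)).algebraMap_mem ⟨a, ha⟩
      · exact IntermediateField.subset_adjoin K (Set.range z)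
    exact h2 hy
  let ι : Subfield.closure ((K : Set ℂ) ∪ Set.range z) →+*
      IntermediateField.adjoin K (Set.range z) :=
    { toFun := fun y => ⟨y.1, h1 y.1 y.2⟩
      map_one' := rfl
      map_mul' := fun _ _ => rfl
      map_zero' := rfl
      map_add' := fun _ _ => rfl }
  refine ⟨q.map ι, ?_, ?_⟩
  · rw [Polynomial.map_ne_zero_iff ι.injective]
    exact hq0
  · rw [Polynomial.aeval_def, Polynomial.eval₂_map]
    exact hq

/-- a copy of the complex numbers -/
theorem exists_copy (S : Set ℂ) (hS : #S = 𝔠) (hind : AlgebraicIndependent K ((↑) : S → ℂ)) :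
    ∃ σ : ℂ →+* ℂ, (∀ x : K, σ (algebraMap K ℂ x) = algebraMap K ℂ x) ∧
      ∀ x, IsAlgebraic (IntermediateField.adjoin K S) (σ x) := by
  classical
  let L := algebraicClosure (IntermediateField.adjoin K S) ℂ
  have h1 : IsAlgClosed L :=
    (algebraicClosure.isAlgClosure (IntermediateField.adjoin K S) ℂ).isAlgClosed
  have h2 : S ⊆ (L : Set ℂ) := by
    intro x hx
    change x ∈ algebraicClosure (IntermediateField.adjoin K S) ℂ
    rw [mem_algebraicClosure_iff]
    have h3 : x ∈ IntermediateField.adjoin K S := IntermediateField.subset_adjoin K S hx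
    exact isAlgebraic_algebraMap (⟨x, h3⟩ : IntermediateField.adjoin K S)
  obtain ⟨s, hs⟩ := exists_isTranscendenceBasis K ℂ
  have h3 : #s ≤ #S := by
    rw [hS, ← mk_complex]
    exact mk_set_le s
  obtain ⟨j⟩ := h3
  let alg1 : Algebra (MvPolynomial s K) ℂ :=
    (aeval (fun x : s => (x : ℂ)) : MvPolynomial s K →ₐ[K] ℂ).toRingHom.toAlgebra
  let θ : MvPolynomial s K →ₐ[K] L := aeval (fun x : s => (⟨j x, h2 (j x).2⟩ : L))
  let alg2 : Algebra (MvPolynomial s K) L := θ.toRingHom.toAlgebra
  have htow : IsScalarTower K L ℂ := IsScalarTower.of_algebraMap_eq (fun x => rfl)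
  have hinj1 : Function.Injective (algebraMap (MvPolynomial s K) ℂ) := hs.1
  have hinj2 : Function.Injective (algebraMap (MvPolynomial s K) L) := by
    have h4 : AlgebraicIndependent K (fun x : s => ((j x : S) : ℂ)) := hind.comp j j.injective
    intro f g hfg
    apply h4
    have h5 : ∀ f : MvPolynomial s K, ((θ f : L) : ℂ) = aeval (fun x : s => ((j x : S) : ℂ)) f := by
      intro f
      have h6 : (IsScalarTower.toAlgHom K L ℂ).comp θ = aeval (fun x : s => ((j x : S) : ℂ)) := by
        ext x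
        simp only [θ, AlgHom.comp_apply, aeval_X]
        rfl
      exact DFunLike.congr_fun h6 f
    rw [← h5, ← h5]
    exact congrArg _ hfg
  have htf1 : FaithfulSMul (MvPolynomial s K) ℂ := (faithfulSMul_iff_algebraMap_injective _ _).2 hinj1
  have htf2 : FaithfulSMul (MvPolynomial s K) L := (faithfulSMul_iff_algebraMap_injective _ _).2 hinj2
  have halg : Algebra.IsAlgebraic (MvPolynomial s K) ℂ := by
    refine ⟨fun x => ?_⟩
    obtain ⟨q, hq0, hq⟩ := hs.isAlgebraic.isAlgebraic x
    let ρ : MvPolynomial s K →+* Algebra.adjoin K (Set.range ((↑) : s → ℂ)) :=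
      ((aeval (fun x : s => (x : ℂ)) : MvPolynomial s K →ₐ[K] ℂ).codRestrict
        (Algebra.adjoin K (Set.range ((↑) : s → ℂ)))
        (fun f => by
          rw [Algebra.adjoin_range_eq_range_aeval]
          exact ⟨f, rfl⟩)).toRingHom
    have hρ : Function.Surjective ρ := by
      rintro ⟨y, hy⟩
      rw [Algebra.adjoin_range_eq_range_aeval] at hy
      obtain ⟨f, hf⟩ := hy
      exact ⟨f, Subtype.ext hf⟩
    obtain ⟨F, hF⟩ := Polynomial.map_surjective ρ hρ q
    refine ⟨F, ?_, ?_⟩
    · rintro rfl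
      apply hq0
      rw [← hF, Polynomial.map_zero]
    · rw [← hF] at hq
      rw [Polynomial.aeval_def, Polynomial.eval₂_map] at hq
      exact hq
  let σ : ℂ →ₐ[MvPolynomial s K] L := IsAlgClosed.lift
  refine ⟨(algebraMap L ℂ).comp σ.toRingHom, fun x => ?_, fun x => ?_⟩
  · have h4 := σ.commutes (C x)
    have h5 : algebraMap (MvPolynomial s K) ℂ (C x) = algebraMap K ℂ x := by
      change aeval (fun x : s => (x : ℂ)) (C x) = _
      rw [aeval_C]
    have h6 : algebraMap (MvPolynomial s K) L (C x) = algebraMap K L x := by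
      change θ (C x) = _
      rw [aeval_C]
    rw [h5, h6] at h4
    change algebraMap L ℂ (σ (algebraMap K ℂ x)) = _
    rw [h4]
    rfl
  · have h4 : ((σ x : L) : ℂ) ∈ L := (σ x).2
    exact mem_algebraicClosure_iff.1 h4

end

section
variable {G : Type u} [Group G] [Countable G] (K : Type) [Field K] [Algebra K ℂ] [IsAlgClosed K]
  [Countable K]

variable (G) in
/-- **The embedding.** -/
theorem exists_embedding : ∃ σ : ℂ →+* ℂ, (∀ x : K, σ (algebraMap K ℂ x) = algebraMap K ℂ x) ∧
    ∀ (m l : ℕ) (T : Finset G) (a : T × Fin m × Fin l → ℂ) (ε : ℝ), 0 < ε →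
      ∃ b : T × Fin m × Fin l → K, (∀ t, a t = 0 → b t = 0) ∧
        kdim T m l (fun t => σ (a t)) ≤ kdim T m l (up b) ∧
        kdim T m l (up b) < kdim T m l (fun t => σ (a t)) + ε := by
  choose Q hQ0 hQ using family (G := G) K
  obtain ⟨S, hgood, hS⟩ := exists_good Q hQ0
  have hind : AlgebraicIndependent K ((↑) : S → ℂ) := by
    apply algebraicIndependent_of_finite
    intro t ht hfin
    obtain ⟨p, z, hz, hzR⟩ := hgood hfin.toFinset (by rw [Set.Finite.coe_toFinset]; exact ht)
    rw [Set.Finite.coe_toFinset] at hz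
    exact (hQ p z (fun n => hzR _ (Set.mem_iUnion.2 ⟨0, n, rfl⟩))).1.to_subtype_range' hz
  obtain ⟨σ, hσK, hσ⟩ := exists_copy K S hS hind
  refine ⟨σ, hσK, fun m l T a ε hε => ?_⟩
  obtain ⟨F, hF, halg⟩ := fin_alg' K S (fun t => σ (a t)) (fun t => hσ _)
  obtain ⟨p, z, hz, hzR⟩ := hgood F hF
  obtain ⟨b, hb0, hb1, hb2⟩ := (hQ p z (fun n => hzR _ (Set.mem_iUnion.2 ⟨0, n, rfl⟩))).2 m l T
    (fun t => σ (a t)) (fun t => by rw [hz]; exact halg t) ε hε
  refine ⟨b, fun t ht => hb0 t ?_, hb1, hb2⟩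
  rw [ht, map_zero]

end

end Pool.Agent.V1132.GE
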